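import Mathlib
import Pool.Agent.Run7.h870.LJ.J

/-!
# The limit law of the prime counts of monic quadratic polynomials in thin families, with its tails

There is a continuous distribution function `G`, zero on `(-∞, 0]`, strictly increasing on `[0, ∞)`, with
doubly exponential tails with known constants, such that for all `N^(5/6+ε) ≤ A ≤ N` the proportion of the
`a ≤ A` for which `n² + a` has at most `t (1/2) ∫_2^N du / log u` primes for `n ≤ N` is `G(t) + o(1)`,
uniformly in `t` and `A`, and the same for `n² + n + a`, `a` odd, with `∫_2^N du / log u`. `G` is also the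
limit law of the Hardy-Littlewood constants `∏_{p > 2} (1 - (-a | p) / (p - 1))`.

The statement `J0` of `Pool/Agent/N511/LL/Stm.lean` (project LL of helper511) is the part for `n² + a`. The
parts `A0 B2 C0 D0 E0 F0 F1 F2 I0` of that project are proved in the starting tree; Mertens' theorem with
`e^γ` (`M0`), the product formula (`CR0`), the limit distribution function (`G0`), the four bounds of the
tails (`H1`-`H4`) and the assembly are proved in `Pool/Agent/Run7/h870/LJ/`.
-/

set_option autoImplicit false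

namespace Pool.Agent.Results.MP_a1177c_nt.LimitLawWithTails

open Finset Filter Topology
open Classical in
section

/-- the number of the `n`, `1 ≤ n ≤ N`, with `n² + a` prime -/
def P0 (a N : ℕ) : ℕ := #((Icc 1 N).filter (fun n : ℕ => (n ^ 2 + a).Prime))

/-- the number of the `n`, `1 ≤ n ≤ N`, with `n² + n + a` prime -/
def P1 (a N : ℕ) : ℕ := #((Icc 1 N).filter (fun n : ℕ => (n ^ 2 + n + a).Prime))

/-- the product of `1 - (-a | p) / (p - 1)` over the odd primes `p ≤ X` -/
noncomputable def hprod (a X : ℕ) : ℝ :=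
  ∏ p ∈ (Icc 3 X).filter Nat.Prime, (1 - (jacobiSym (-(a : ℤ)) p : ℝ) / ((p : ℝ) - 1))

/-- **The limit law of the prime counts.** -/
theorem result : ∃ (G : ℝ → ℝ) (C2 : ℝ),
    -- `G` is a continuous distribution function with support `[0, ∞)`
    Continuous G ∧ (∀ t ≤ 0, G t = 0) ∧ StrictMonoOn G (Set.Ici 0) ∧ Tendsto G atTop (𝓝 1) ∧
    -- `C2` is the twin prime constant
    Tendsto (fun y : ℕ => ∏ p ∈ (Icc 3 y).filter Nat.Prime, (1 - 1 / ((p : ℝ) - 1) ^ 2)) atTop (𝓝 C2) ∧
    -- the tails of `G`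
    Tendsto (fun t : ℝ => Real.log (-Real.log (1 - G t)) / t) atTop
      (𝓝 (2 * Real.exp (-Real.eulerMascheroniConstant))) ∧
    Tendsto (fun t : ℝ => Real.log (-Real.log (G (1 / t))) / t) atTop
      (𝓝 (2 * C2 * Real.exp (-Real.eulerMascheroniConstant))) ∧
    -- the law of the Hardy-Littlewood constants
    (∀ t : ℝ, Tendsto (fun X : ℕ => (#((Icc 1 X).filter (fun a : ℕ =>
      ∃ h : ℝ, Tendsto (hprod a) atTop (𝓝 h) ∧ h ≤ t)) : ℝ) / X) atTop (𝓝 (G t))) ∧
    -- the law of the prime counts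
    ∀ ε η : ℝ, 0 < ε → 0 < η → ∃ N0 : ℕ, ∀ N : ℕ, N0 ≤ N → ∀ A : ℕ, (N : ℝ) ^ (5 / 6 + ε) ≤ A → A ≤ N → ∀ t : ℝ,
      |(#((Icc 1 A).filter (fun a : ℕ => (P0 a N : ℝ) ≤ t * (1 / 2 * ∫ u in (2 : ℝ)..N, 1 / Real.log u))) : ℝ) / A -
        G t| ≤ η ∧
      |(#((Icc 1 A).filter (fun a : ℕ => Odd a ∧ (P1 a N : ℝ) ≤ t * ∫ u in (2 : ℝ)..N, 1 / Real.log u)) : ℝ) /
        ((A + 1) / 2 : ℕ) - G t| ≤ η :=
  Pool.Agent.Run7.h870.LJ.main

end

end Pool.Agent.Results.MP_a1177c_nt.LimitLawWithTails
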