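import Pool.Agent.Run7.h870.LG.Dat

set_option autoImplicit false

/-!
# Almost prime values of every irreducible polynomial in almost all intervals of length `ψ(X) log X`

Let `f` be an irreducible polynomial of degree `g`. The proportion of the `n ≤ X` for which `f(n)` has no
prime factor below a fixed power of `X` is about `1 / log X`; so the intervals of length `ψ(X) log X`,
`ψ(X) → ∞`, are the shortest ones of which almost all can contain values of `f` with a bounded number of
prime factors. The weights of the weighted linear sieve are supported on divisors composed of primes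
`≥ X ^ ε₁`; their sums over short intervals are compared, in mean square over the position of the
interval, with the mean value. The correlations of the weights at `n` and `n + h` are evaluated by the
fundamental lemma for the pairs `f(n)`, `f(n + h)` (with collisions at the prime factors of a resultant),
and the densities of these pairs are the square of the density of a single value on average over `h`.
-/

namespace Pool.Agent.Results.MP_51e72e_nt.AlmostPrimesAtOptimalScale

open Finset Polynomial

open Classical in
/-- The number of the integers `n` in `(N, N + H]` such that `f(n)` has at most `r` prime factors, counted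
with multiplicity, all of them at least `w`. -/
noncomputable def almostPrimeCount (f : ℤ[X]) (r : ℕ) (w : ℝ) (N H : ℕ) : ℕ :=
  ((Ioc N (N + H)).filter (fun n : ℕ => (f.eval (n : ℤ)).natAbs.primeFactorsList.length ≤ r ∧
    ∀ p : ℕ, p.Prime → (p : ℤ) ∣ f.eval (n : ℤ) → w ≤ p)).card

open Classical in
/-- **Almost prime values in almost all very short intervals.** Let `f` be an irreducible polynomial with
integer coefficients, of degree `g ≥ 1`, with positive leading coefficient and without fixed prime divisor,
and let `z < (3 - √5) / 4 = 0.19…`. There is `δ > 0` with the following property. For every `ε > 0` there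
are `K` and `X₀` such that, for all `X ≥ X₀` and all `H` with `K log X ≤ H ≤ X`, all but at most `ε X` of the
intervals `(N, N + H]`, `1 ≤ N ≤ X`, contain at least `δ H / log X` integers `n` for which `f(n)` has at most
`2 g + 1` prime factors, counted with multiplicity, all of them at least `X ^ z`. -/
theorem result (f : ℤ[X]) (hirr : Irreducible f) (hdeg : 0 < f.natDegree)
    (hlead : 0 < f.leadingCoeff)
    (hfix : ∀ p : ℕ, p.Prime → ∃ m : ℕ, ¬ (p : ℤ) ∣ f.eval (m : ℤ))
    (z : ℝ) (hz : z < (3 - √5) / 4) :
    ∃ δ : ℝ, 0 < δ ∧ ∀ ε : ℝ, 0 < ε →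
      ∃ (K : ℝ) (X₀ : ℕ), ∀ Y H : ℕ, X₀ ≤ Y → K * Real.log Y ≤ H → H ≤ Y →
        (((Icc 1 Y).filter (fun N : ℕ =>
          (almostPrimeCount f (2 * f.natDegree + 1) ((Y : ℝ) ^ z) N H : ℝ) <
            δ * (H / Real.log Y))).card : ℝ) ≤ ε * Y := by
  obtain ⟨c, D, cl, R, hF⟩ := Run7.h870.LG.dat_f (f := f) ⟨hirr, hdeg, hlead, hfix⟩
  obtain ⟨τ, ζ, υ, lam, S, σ, hP, hσ, hσ1, hS, hr, hzζ⟩ :=
    Run7.h870.LG.params f.natDegree hdeg z hz
  have hS' : (f.natDegree : ℝ) < S := by
    have : 0 ≤ (f.natDegree : ℝ) * σ := by positivity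
    linarith
  obtain ⟨δ, hδ, h⟩ := Run7.h870.LG.intervals hF (2 * f.natDegree + 1) hP hS' hr
  refine ⟨δ, hδ, fun ε hε => ?_⟩
  obtain ⟨K, -, X₀, hX⟩ := h ε hε
  refine ⟨K, max X₀ 1, fun Y H h1 h2 h3 => ?_⟩
  refine le_trans ?_ (hX Y ((le_max_left _ _).trans h1) H h2 h3)
  have hY1 : (1 : ℝ) ≤ Y := by exact_mod_cast (le_max_right X₀ 1).trans h1
  have e : ∀ N : ℕ, (Run7.h870.LG.iset (Run7.h870.LG.Fv f) (2 * f.natDegree + 1)
      ((Y : ℝ) ^ ζ) N H).card ≤ almostPrimeCount f (2 * f.natDegree + 1) ((Y : ℝ) ^ z) N H := by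
    intro N
    unfold almostPrimeCount Run7.h870.LG.iset Run7.h870.LG.Fv
    apply card_le_card
    intro n hn
    rw [mem_filter] at hn ⊢
    refine ⟨hn.1, hn.2.1, fun p hp hd => le_trans ?_ (hn.2.2 p hp hd)⟩
    exact Real.rpow_le_rpow_of_exponent_le hY1 hzζ
  have h4 : ((Icc 1 Y).filter (fun N : ℕ =>
        (almostPrimeCount f (2 * f.natDegree + 1) ((Y : ℝ) ^ z) N H : ℝ) <
          δ * (H / Real.log Y))).card ≤
      ((Icc 1 Y).filter (fun N => ((Run7.h870.LG.iset (Run7.h870.LG.Fv f)
        (2 * f.natDegree + 1) ((Y : ℝ) ^ ζ) N H).card : ℝ) < δ * H / Real.log Y)).card := by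
    apply card_le_card
    intro N hN
    rw [mem_filter] at hN ⊢
    refine ⟨hN.1, ?_⟩
    have h5 := hN.2
    rw [← mul_div_assoc] at h5
    refine lt_of_le_of_lt ?_ h5
    exact_mod_cast e N
  exact_mod_cast h4

end Pool.Agent.Results.MP_51e72e_nt.AlmostPrimesAtOptimalScale
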